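import Mathlib
import Pool.Agent.H67.BH.Final

/-!
# Quotients of Dedekind zeta functions at all points: small subgroups of `SL_n(F)`

`Pool.Agent.H541R3.ART.ArtinData G s₀` is a family of functions with the formal properties of the
Artin L-functions of a Galois extension `E/K` with group `G` near a point `s₀ ≠ 1`: functions
`L χ` for the irreducible characters `χ` of `G`, meromorphic and not identically zero near `s₀`
(Brauer), and `Lin H ψ` for the linear characters `ψ` of the subgroups `H`, without pole at `s₀`
(Artin reciprocity and Hecke), such that `Lin H ψ` is the product of the `L χ ^ ⟨χ|_H, ψ⟩`
(induction). In particular `Lin H 1` stands for the Dedekind zeta function of the fixed field of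
`H`.

`Pool.Agent.H67.BH.Stable r T` says that the subgroup `T` of `SL_n(F)` acts on the first `r`
coordinates only, in other words: it is a subgroup of `SL_r(F)`, as a subgroup of `SL_n(F)`; and that
`n ≥ 2 (2 ^ (P + 3) r + 2)⁴ + 64 (P |T| + 6) (|T| + 1) ^ P`, where `P = max 3 (char F)`.

`Pool.Agent.H67.BH.Small k T` says that `(4 |T| + 2) (k + ⌊log₂ |T|⌋ + 5) ≤ n` and that, with the
rank `r` of `t - 1`, either
(a) every element `t` of the subgroup `T` of `SL_n(F)` is unipotent with
`r³ + 3 r + ⌊log₂ |T|⌋ + 5 ≤ n`, or has `r ≥ char F` and `2 (r + 2)⁴ + ⌊log₂ |T|⌋ + 5 ≤ n`; or
(b) `F` has characteristic two and every element `t` of `T`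
* satisfies `t² = 1`, or
* is an element of small rank: `2 (r + 2)⁴ + ⌊log₂ |T|⌋ + 5 ≤ n`, or
* satisfies `Pool.Agent.H67.BC.Doubled k t`: in suitable coordinates
  `F ^ n = F ^ k ⊕ F ^ k ⊕ F ^ l` it is the map `(a, b, c) ↦ (h a, h⁻¹ b, c)`, where `h` in
  `GL_k(F)` is inverted by some `x` in `GL_k(F)` with `x² = 1` (`Pool.Agent.H67.BC.IsDbl`).

In other words: ALL subgroups `T` of `SL_r(F)`, `F` an arbitrary finite field, are admitted in
`SL_n(F)` for all `n` which are large with respect to `r`, `|T|` and the characteristic; `Small` gives
better bounds, and groups of elements of large rank in characteristic two.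

Proof. Let `θ` be a class function on `SL(W)` with nonnegative multiplicities against the linear
characters of all subgroups, and `f = θ(1) - Re θ`. If `g` normalizes `V`, then the mean of `f` over
the coset `V g` is at least the mean over `V`; if `V` is abelian and `V' ⊆ V` is also normalized by
`g`, then (mean of `f` over `V g`) - (mean over `V`) is at most the same difference for `V'`.

1. Let `p = 2` and `c = ⌊log₂ |T|⌋ + 5`. If the minimal polynomial of `g` is a product of two coprime factors
whose kernels have dimension at least `c`, let `A` be the kernel of smaller dimension (for a
canonical choice of the factors); these `g` form a union of cosets `V g` with `V = Hom(W / A, A)`,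
an elementary abelian group of involutions. The mean of `f` over `V` is at least `(1 - q ^ {-c})²`
times the value `b` of `f` at any given involution (averages over random matrices; a field of
`q ^ r` matrices of size `r` for involutions of large rank). The other elements `g` have a minimal
polynomial which divides `π ^ k R` with `π` irreducible, `deg R < c`; their number is estimated by
counting, for a fixed functional `φ`, the possible annihilators of `φ` in `F[X]`, each of which
occurs for a small set of elements: the proportion of these elements is at most
`2 / q ^ c + 2 c / (n - 2 c)`. So the mean of `f` over `SL(W)` is almost as large as its maximum `b`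
on the involutions.

2. For a doubled element `f` is at most `J / (J - 1) b` for all `J ≤ n / k`: the block diagonal
group of all `(h ^ a₁, ..., h ^ a_J)` with `∑ a_i = 0` is inverted by an involution `x`, so the mean
of `f` over it is at most the mean over a coset consisting of involutions.

3. Let `h` be an element of small rank, `R` the range of `h - 1`, `V = Hom(W / R, R)`. Almost all
elements of the coset `V h` are conjugate to `h` (they agree with `h` on `R`), so `f(h)` is about
the mean of `f` over `V h`, and the mean over `V` is at most `b`. The difference of the two means
is the defect at `y = h|_R` of a function `θ_R` on `SL(R)` with the same properties as `θ` (the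
averages of `θ` over cosets of `V`). For involutions `y` with fixed space `L ⊆ R` it is at most the
difference of the means over the coset of `y` and over the group `Hom(W / R, L)`; almost all
elements of both are conjugate, so it is at most `2 q ^ {2 r - n} b`.

4. For all `y` in `SL(R)` the defect of `θ_R` is at most `q ^ {2 (r + 1)⁴}` times its maximum `η`
on the involutions of `SL(R)`. Elements of `GL_r(2)`: if `y` has an invariant subspace `L`, use the
coset of `y` modulo `Hom(R / L, L)` and induction for the blocks; if `y` is irreducible, there is
an `F₂`-linear `φ` with `φ y = y² φ` and a fixed vector, the elements `y ^ j φ` are all conjugate to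
`φ`, and the mean over the group generated by `y` is at most that over its coset by `φ`. This
gives the permutation matrices over `F`; then the diagonal matrices `D` (the coset of `D` by a
cyclic permutation consists of elements permuting a basis), and the monomial ones. For general `y`
one makes, block by block, a similar step with `φ y = y ^ q φ`: the elements `y ^ j φ` of the
coset are either reducible or, since their power of exponent `dim` is a scalar, monomial.

5. For unipotent `h` and arbitrary `p` the same works with the elements `x`, `(x - 1)² = 0`, of
small rank instead of the involutions: in step 4 one splits off the fixed space of `y`.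

6. For arbitrary `h` of rank `r ≥ p`, `p` odd: step 4 works with the elements `x`, `(x - 1)² = 0`,
of `SL(R)` instead of the involutions. First the diagonal matrices: let `π` be a permutation matrix
of order `p` which maps the `l`-th vector of the basis to the `k`-th one. The group of the diagonal
matrices `diag(ζ ^ {a_{π(i)} - a_i})` is normalized by `π`, and the elements of its coset by `π` have
order `p`, since they are conjugate to `π`: they are unipotent, so step 5 applies to the coset. This
gives `diag(1, ..., ζ ^ a, ..., ζ ^ {-a}, ..., 1)`, hence all diagonal matrices of determinant one,
hence all involutions (they are diagonalizable). Then the monomial matrices whose permutation is an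
involution: up to a diagonal matrix they are involutions or products of an involution and a matrix
with a transposition; then all monomial matrices: the group of the monomial matrices whose
permutation is in the cyclic group of `σ`, and its coset by a monomial matrix whose permutation is
an involution which inverts `σ`. For general `y` one proceeds as in step 4, with the semilinear map
`φ` of determinant one: the Frobenius map times an element of suitable norm.

7. For a subgroup `T` of `SL_r(F)` which contains elements of rank less than `p`, consider
`K = 2 ^ (P + 3)` commuting conjugates `T_1, ..., T_K` of `T` in `SL_n(F)`, and let `F(A)` be the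
mean of `f` over the product of the `T_i`, `i ∈ A`. It increases with `A`. The elements with at least
`P` non-trivial components have rank at least `p`, so `f` is at most `(1 + ε) b` there; and `F(A)` is
at most about `b` for `|A| = K`. For `|A| = P` the inclusion-exclusion formula expresses the mean of
`f` over the elements all of whose components in `A` are non-trivial by the `F(A')`, `A' ⊆ A`; as `P`
is odd, it follows that either `F(A) ≥ (1 + c) F_1` or `F_1 ≤ (1 - c / 2) b` for the mean `F_1` over
`T`, where `c = 1 / (2 (|T| + 1) ^ P)`. In the first case `(1 + c) F_1 ≤ F(A) ≤ F({1, ..., K})` is at
most about `b`. So in both cases the mean over `T` is less than `b`, by a definite factor.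
-/

set_option autoImplicit false

open Pool.Agent.H541R3.ART

/-- Let `G` be the Galois group of `E/K`, `M` a subgroup of `G` and `π` a homomorphism
of `M` onto a product of finitely many groups `P j`. Let `U j` be a subgroup of `P j` with
`SmallImage (U j)`: the image of a subgroup `T` of some `SL_n(F)`, `F` a finite field, with
`Stable k T` or `Small k T` for some `k`, under a homomorphism of `SL_n(F)` onto a normal subgroup of
`P j` (for example: `P j` is `SL_n(F)`, `PSL_n(F)`, `GL_n(F)` or `PGL_n(F)`). Let `V₀` be the group
of all `v` in `M` with `π(v)_j` in `U j` for all `j`, and let `V` be a subgroup of `V₀` which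
contains a normal subgroup `N` of `V₀` with `V₀ / N` solvable (for example: `V = V₀`).

Then for all points `s₀`, all functions with the formal properties of the Artin L-functions of
`E/K` near `s₀`, and all linear characters `ρ` of `M`, the order at `s₀` of the L-function of `ρ`
over `E^M` is at most the order of the L-function of `ρ|_V` over `E^V`; for `ρ = 1`: the quotient
`ζ_{E^V} / ζ_{E^M}` has no pole at `s₀`. The zeros may have any order.

For example: `M = G = SL_n(F)`, `F` any finite field, and `V = T` is any subgroup of `SL_r(F)`
(acting on the first `r` coordinates), `n` large; or `char F = 2`, `n ≥ 60` and `V = T` is generated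
by any involution (`Small 0 T`). -/
theorem Pool.Agent.Results.MP_9fc8a5_nt.LinearClosure.result
    (G : Type) [Group G] [Finite G] (M : Subgroup G)
    (r : ℕ) (P : Fin r → Type) [∀ j, Group (P j)] (U : ∀ j, Subgroup (P j))
    (hU : ∀ j, Pool.Agent.H67.BH.SmallImage (U j))
    (π : M →* ∀ j, P j) (hπ : Function.Surjective π)
    (V₀ V N : Subgroup G) (hV₀ : V₀ ≤ M) (hmem : ∀ v : M, (v : G) ∈ V₀ ↔ ∀ j, π v j ∈ U j)
    (hV : V ≤ V₀) (hN : N ≤ V) [(N.subgroupOf V₀).Normal]
    (hs : Group.IsSolvable (V₀ ⧸ N.subgroupOf V₀))
    (s₀ : ℂ) (A : ArtinData G s₀) (ρ : M →* ℂˣ) :
    meromorphicOrderAt (A.Lin M ρ) s₀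
      ≤ meromorphicOrderAt (A.Lin V (ρ.comp (Subgroup.inclusion (hV.trans hV₀)))) s₀ :=
  Pool.Agent.H67.BH.main_prod M r P U hU π hπ V₀ V N hV₀ hmem hV hN hs s₀ A ρ
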