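import Mathlib
import Pool.Agent.H37.SOW.Ext
import Pool.Agent.H37.SOW.Stm

/-!
# Quotients of Dedekind zeta functions: nilpotent groups of permutations of few points

`Pool.Agent.H541R3.ART.ArtinData Γ s₀` is a family of functions with the formal properties of the
Artin L-functions of a Galois extension `E/K` of number fields with group `Γ` near a point
`s₀ ≠ 1`: functions `L ψ` for the irreducible characters `ψ` of `Γ` and `Lin U l` for the linear
characters `l` of the subgroups `U`, such that `L ψ` is meromorphic and not identically zero near
`s₀` (Brauer), `Lin U l` has no pole at `s₀` (Artin reciprocity and Hecke), and `Lin U l` is the
product of the `L ψ ^ ⟨ψ|_U, l⟩` (induction). In particular `Lin U 1` stands for the Dedekind zeta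
function of the fixed field of `U`, and `Lin U (χ|_U)`, for a linear character `χ` of `Γ`, for the
L-function of `χ` over this field.

`Pool.Agent.H37.SOW.NilSmall k H` says of a group `H` of even permutations of `m` points:
* there is a set of at most `k` points such that `H` fixes all other points
  (`Pool.Agent.H37.SOW.Moves`);
* `H` contains a nilpotent subgroup `A` such that for every element of `H` outside `A` all numbers
  `n ≥ 2` occur an even number of times among the lengths of its cycles.
For instance `H` may be any nilpotent group of even permutations (`A = H`), in particular any abelian
group and any group of order a power of two.

The conclusions `Pool.Agent.H37.SOW.AltHolo` and `Pool.Agent.H37.SOW.ProdHolo` are spelled out in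
the file `Pool/Agent/H37/SOW/Stm.lean` and below. `Pool.Agent.Y786.FR.ind` is the induced class
function.

The proof. For a Heilbronn function `θ` (a class function with nonnegative integer multiplicities
against the linear characters of all subgroups) of a large symmetric group let `r` be the minimum of
its averages over the groups of order a power of two of bounded degree. Say that a permutation group
`W` has property (P) if the average of `θ` over `W` is at least `c r` with `c > 0` depending only on
`W`. Property (P) passes to products and to wreath products `W ≀ T` with a transitive group `T` of
odd prime order acting regularly, because the average of `θ` over a power of `W`, as a function on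
the group which permutes the copies, is a Heilbronn function again; and in a transitive nilpotent
group whose degree is not a power of two there is a system of blocks on which it acts as a group of
odd prime order. So every nilpotent permutation group is contained in a solvable group `W` with (P).
All groups of order a power of two and bounded degree are contained in an iterated wreath product
`Q` of groups of order two, so `r` is at least the average over `Q`; the same holds for the product
of `θ` and the sign. Adding both inequalities reduces the uniform positivity of the sums over the
even elements of `W` to that of the sums over the even elements of `Q`, which is shown by induction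
on `Q` for the limits of normalised Heilbronn functions: the sum over the even elements of `Q ≀ C_2`
contains the Gram matrix of the cycle types of elements of `Q` and, from the elements which
interchange the two copies, the sum over the even elements of `Q` of the values at the square roots
of doubled elements; both are not negative. -/

set_option autoImplicit false

open Pool.Agent.H37.SOW

/-- For every `k` there are `n₀` and `K` such that the following holds.

**First part** (`AltHolo H K`). Let `m ≥ n₀`, let `H` be a group of even permutations of `m` points
with `NilSmall k H`, for instance any nilpotent group of even permutations which moves at most `k`
points, and let `Γ` be a finite group which contains the alternating group `A_m` as a subnormal subgroup, for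
instance `S_m` or `A_m`.

* A positive multiple of `Ind_H^Γ 1 - 1` is a sum of characters of `Γ` induced from linear
  characters `lam i` of subgroups `C i`. So for every Galois extension `E/K₀` with group `Γ` and
  `L = E ^ H` a positive power of `ζ_L / ζ_{K₀}` is the product of the Hecke L-functions of the
  `lam i`.
* Let `χ` be a linear character of `Γ`, and for a subgroup `U` let `o U` be the order of vanishing
  at `s₀ ≠ 1` of the L-function of `χ` over the field `E ^ U` (for `χ = 1` the Dedekind zeta
  function of this field). Then `o Γ ≤ o A_m ≤ o H`: the quotient `ζ_L / ζ_{K₀}` and its twists are
  holomorphic at `s₀`. Moreover `o 1 - o A_m ≤ K (o H - o A_m)`.

**Second part** (`ProdHolo n₀ P`). Let `G` be the Galois group of `E/K₀`, `M` a subgroup of `G` and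
`π` a homomorphism of `M` onto a product of finitely many groups `Q i`, where `Q i` contains an
alternating group of degree `m i ≥ n₀` as a subnormal subgroup; let `H i` be a subgroup of this
alternating group with `NilSmall k (H i)`. Let `V₀` be the group of all `v` in `M` with `π(v)_i` in `H i`
for all `i`, and let `V` be a subgroup of `V₀` which contains a normal subgroup `N` of `V₀` with
`V₀ / N` solvable (for example: `V = V₀`; or the kernel of `π` is solvable, all `H i` are nilpotent
and `V` is any subgroup of `V₀`). Then for all points `s₀ ≠ 1` and all linear characters `ρ` of `M`
the order at `s₀` of the L-function of `ρ` over `E^M` is at most the order of the L-function of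
`ρ|_V` over `E^V`; for `ρ = 1`: the quotient `ζ_{E^V} / ζ_{E^M}` has no pole at `s₀`. -/
theorem Pool.Agent.Results.MP_9fc8a5_nt.NilpotentSubgroups.result (k : ℕ) :
    ∃ n₀ K : ℕ,
      (∀ m : ℕ, n₀ ≤ m → ∀ H : Subgroup (alternatingGroup (Fin m)), NilSmall k H → AltHolo H K) ∧
      ProdHolo n₀ (fun _ H => NilSmall k H) :=
  holo_of (k := k) (P := fun _ H => NilSmall k H) (nil_main k)
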