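import Mathlib
import Pool.Agent.H37.SOW.OddExt
import Pool.Agent.H37.SOW.Stm

/-!
# Quotients of Dedekind zeta functions: groups of odd order of permutations of few points

`Pool.Agent.H541R3.ART.ArtinData Γ s₀` is a family of functions with the formal properties of the
Artin L-functions of a Galois extension `E/K` of number fields with group `Γ` near a point
`s₀ ≠ 1`: functions `L ψ` for the irreducible characters `ψ` of `Γ` and `Lin U l` for the linear
characters `l` of the subgroups `U`, such that `L ψ` is meromorphic and not identically zero near
`s₀` (Brauer), `Lin U l` has no pole at `s₀` (Artin reciprocity and Hecke), and `Lin U l` is the
product of the `L ψ ^ ⟨ψ|_U, l⟩` (induction). In particular `Lin U 1` stands for the Dedekind zeta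
function of the fixed field of `U`, and `Lin U (χ|_U)`, for a linear character `χ` of `Γ`, for the
L-function of `χ` over this field.

For a group `H` of even permutations of `m` points:
* `Pool.Agent.H37.SOW.Moves k H` says that there is a set of at most `k` points such that `H` fixes
  all other points;
* `Pool.Agent.H37.SOW.OddChain H` says that `H` has odd order, is solvable (as all groups of odd
  order are), and that for each point `x` there is a chain of subgroups
  `H_x = K_0 ≤ K_1 ≤ ... ≤ K_r = H` such that the index of each in the next is a prime number
  (`Pool.Agent.H37.SOW.Reach`);
* `Pool.Agent.H37.SOW.OddSmall k H` says that `Moves k H` and that `H` contains a subgroup `A` with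
  `OddChain A` such that for every element of `H` outside `A` all numbers `n ≥ 2` occur an even
  number of times among the lengths of its cycles.
For instance `H` may be any group of odd order which is supersolvable, or any group of odd order
whose nontrivial elements fix none of the points moved by `H`; or it may have such a subgroup of
index two outside which all elements have even multiplicities of their cycle lengths.

The conclusions `Pool.Agent.H37.SOW.AltHolo` and `Pool.Agent.H37.SOW.ProdHolo` are spelled out in
the file `Pool/Agent/H37/SOW/Stm.lean` and below. `Pool.Agent.Y786.FR.ind` is the induced class
function.

The proof. Say that a group `V` of permutations of a finite set `X` has a uniform lower bound if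
there are `c > 0` and `M` such that the sum over `V` of every Heilbronn function `θ` of the
symmetric group of a set of at least `M` points which contains `X` is at least `c θ(1)`. This
property passes to products and to wreath products `U ≀ T`, because the average of `θ` over a power
of `U`, as a function on the group which permutes the copies of `X`, is a Heilbronn function again.
A transitive group of odd order and prime degree `p` has the property: it has a regular normal
subgroup of order `p`, the inversion of which commutes with the stabiliser, so all other elements
have even multiplicities of their cycle lengths; now `Pool.Agent.H37.SOC.Lim.pos` applies. So every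
group as above is contained in a solvable group of odd order with the property. -/

set_option autoImplicit false

open Pool.Agent.H37.SOW

/-- For every `k` there are `n₀` and `K` such that the following holds.

**First part** (`AltHolo H K`). Let `m ≥ n₀`, let `H` be a group of even permutations of `m` points
with `OddSmall k H`, for instance any supersolvable group of odd order which moves at most `k`
points, and let `Γ` be a finite group which contains the alternating group `A_m` as a subnormal subgroup, for
instance `S_m` or `A_m`.

* A positive multiple of `Ind_H^Γ 1 - 1` is a sum of characters of `Γ` induced from linear
  characters `lam i` of subgroups `C i`. So for every Galois extension `E/K₀` with group `Γ` and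
  `L = E ^ H` a positive power of `ζ_L / ζ_{K₀}` is the product of the Hecke L-functions of the
  `lam i`.
* Let `χ` be a linear character of `Γ`, and for a subgroup `U` let `o U` be the order of vanishing
  at `s₀ ≠ 1` of the L-function of `χ` over the field `E ^ U` (for `χ = 1` the Dedekind zeta
  function of this field). Then `o Γ ≤ o A_m ≤ o H`: the quotient `ζ_L / ζ_{K₀}` and its twists are
  holomorphic at `s₀`. Moreover `o 1 - o A_m ≤ K (o H - o A_m)`.

**Second part** (`ProdHolo n₀ P`). Let `G` be the Galois group of `E/K₀`, `M` a subgroup of `G` and
`π` a homomorphism of `M` onto a product of finitely many groups `Q i`, where `Q i` contains an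
alternating group of degree `m i ≥ n₀` as a subnormal subgroup; let `H i` be a subgroup of this
alternating group with `OddSmall k (H i)`. Let `V₀` be the group of all `v` in `M` with `π(v)_i` in `H i`
for all `i`, and let `V` be a subgroup of `V₀` which contains a normal subgroup `N` of `V₀` with
`V₀ / N` solvable (for example: `V = V₀`; or the kernel of `π` is solvable, all `H i` have odd order
and `V` is any subgroup of `V₀`). Then for all points `s₀ ≠ 1` and all linear characters `ρ` of `M`
the order at `s₀` of the L-function of `ρ` over `E^M` is at most the order of the L-function of
`ρ|_V` over `E^V`; for `ρ = 1`: the quotient `ζ_{E^V} / ζ_{E^M}` has no pole at `s₀`. -/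
theorem Pool.Agent.Results.MP_9fc8a5_nt.OddOrderSubgroups.result (k : ℕ) :
    ∃ n₀ K : ℕ,
      (∀ m : ℕ, n₀ ≤ m → ∀ H : Subgroup (alternatingGroup (Fin m)), OddSmall k H → AltHolo H K) ∧
      ProdHolo n₀ (fun _ H => OddSmall k H) :=
  holo_of (k := k) (P := fun _ H => OddSmall k H) (oddSmall_main k)
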