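import Mathlib
import Pool.Agent.H67.TV.Main

/-!
# Quotients of Dedekind zeta functions at all points: `SL_n(F)` and groups of transvections

`Pool.Agent.H541R3.ART.ArtinData G s₀` is a family of functions with the formal properties of the
Artin L-functions of a Galois extension `E/K` with group `G` near a point `s₀ ≠ 1`: functions
`L χ` for the irreducible characters `χ` of `G`, meromorphic and not identically zero near `s₀`
(Brauer), and `Lin H ψ` for the linear characters `ψ` of the subgroups `H`, without pole at `s₀`
(Artin reciprocity and Hecke), such that `Lin H ψ` is the product of the `L χ ^ ⟨χ|_H, ψ⟩`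
(induction). In particular `Lin H 1` stands for the Dedekind zeta function of the fixed field of
`H`.

Proof. Let `θ` be a class function on `SL(W)` with nonnegative multiplicities against the linear
characters of all subgroups, and `f = θ(1) - Re θ`. If `g` normalizes `V` then the mean of `f` over
the coset `V g` is at least the mean over `V`. The group `SL(W)` is partitioned into cosets `V g`:
if the minimal polynomial of `g` is not a power of an irreducible polynomial then
`V = Hom(W / A, A)` for the kernel `A` of one of two coprime factors; otherwise
`V = Hom(W / A, A)` for the largest `g`-invariant subspace `A` in the kernel of a fixed functional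
`φ`. Here `V` contains many transvections, all of which are conjugate in `SL(W)`, unless `A = 0`;
then `g` is determined by the coordinates `φ(g ^ i w)` and its characteristic polynomial, a power
of an irreducible polynomial, and there are few such elements.
-/

set_option autoImplicit false

open Pool.Agent.H541R3.ART

/-- Let `G` be the Galois group of `E/K`, let `N ≤ M` be subgroups of `G`, `N` normal in `M`, and
let `M / N` be the Galois group of `E^N / E^M`. Suppose that there is a surjection `π` with solvable
kernel from `M / N` onto a product of finitely many groups `P j`, and that for each `j` there are a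
finite field `F j`, a number `n j` and a homomorphism `ι j` of `SL_{n j}(F j)` onto a normal
subgroup of `P j` (for example: `P j` is `SL_n(F)`, `PSL_n(F)`, `GL_n(F)` or `PGL_n(F)`).
Let `T j` be a subgroup of `SL_{n j}(F j)` consisting of transvections and `1`
(`t - 1` has rank at most one for all `t` in `T j`), of order at most `n j - 7`, and let
`V` be a subgroup with `N ≤ V ≤ M` whose image in `P j` is contained in the image of `T j` for
every `j` (for example: `M / N = SL_n(F)`, `F` a finite field of characteristic `p`, `n ≥ p + 7`,
and `E^V` is the fixed field of a transvection).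

Then for all points `s₀`, all functions with the formal properties of the Artin L-functions of
`E/K` near `s₀`, and all linear characters `ρ` of `M`, the order at `s₀` of the L-function of `ρ`
over `E^M` is at most the order of the L-function of `ρ|_V` over `E^V`; for `ρ = 1`: the quotient
`ζ_{E^V} / ζ_{E^M}` has no pole at `s₀`. The zeros may have any order. -/
theorem Pool.Agent.Results.MP_9fc8a5_nt.TransvectionGroups.result
    (G : Type) [Group G] [Finite G] (M N : Subgroup G) [(N.subgroupOf M).Normal]
    (r : ℕ) (F : Fin r → Type) [∀ j, Field (F j)] [∀ j, Finite (F j)] (n : Fin r → ℕ)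
    (P : Fin r → Type) [∀ j, Group (P j)]
    (ι : ∀ j, Matrix.SpecialLinearGroup (Fin (n j)) (F j) →* P j)
    (hι : ∀ j, (ι j).range.Normal)
    (T : ∀ j, Subgroup (Matrix.SpecialLinearGroup (Fin (n j)) (F j)))
    (hT : ∀ j, ∀ t ∈ T j, ((t : Matrix (Fin (n j)) (Fin (n j)) (F j)) - 1).rank ≤ 1)
    (hn : ∀ j, Nat.card (T j) + 7 ≤ n j)
    (π : (M ⧸ N.subgroupOf M) →* ∀ j, P j) (hπ : Function.Surjective π)
    (hs : Group.IsSolvable π.ker) (V : Subgroup G) (hNV : N ≤ V) (hVM : V ≤ M)
    (hV : ∀ j, (V.subgroupOf M).map
      ((Pi.evalMonoidHom P j).comp (π.comp (QuotientGroup.mk' (N.subgroupOf M))))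
        ≤ (T j).map (ι j))
    (s₀ : ℂ) (A : ArtinData G s₀) (ρ : M →* ℂˣ) :
    meromorphicOrderAt (A.Lin M ρ) s₀
      ≤ meromorphicOrderAt (A.Lin V (ρ.comp (Subgroup.inclusion hVM))) s₀ :=
  Pool.Agent.H67.TV.main_prod M N r F n P ι hι T hT hn π hπ hs V hNV hVM hV s₀ A ρ
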